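import Mathlib
import Pool.Agent.H530.SqD

/-!
# Numbers `(2 k) ^ 2 + D b ^ 2` with at most five prime factors between all consecutive odd squares

Let `D` be any integer such that `-D` is no square (for instance `D = 1`).  For EVERY large `n` coprime
to `D` there are at least `c (φ(n) / n) √n / log n` numbers of the thin sequence `n ^ 2 + D b ^ 2`,
`1 ≤ b`, in `((n - 1) ^ 2, (n + 1) ^ 2)`, in fact in `(n ^ 2, (n + 1) ^ 2)` for `D > 0` and in
`((n - 1) ^ 2, n ^ 2)` for `D < 0`, that have at most five prime factors, all of them at least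
`n ^ (3/25)`.  With `n = 2 k` they lie between the consecutive odd squares `(2 k - 1) ^ 2` and
`(2 k + 1) ^ 2`; there are only `O(√k)` numbers of the sequence in this interval.
-/

set_option autoImplicit false

namespace Pool.Agent.Results.MP_3a3367_nt.QuadraticAlmostPrimes

open Finset Filter

/-- the numbers strictly between `lo` and `hi` of the form `n ^ 2 + D b ^ 2`, `b ≥ 1`, that have at
most five prime factors (with multiplicity), all of them at least `n ^ (3 / 25)` -/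
def P5 (D : ℤ) (n lo hi : ℕ) : Set ℕ :=
  {m : ℕ | lo < m ∧ m < hi ∧ (∃ b : ℕ, 1 ≤ b ∧ (m : ℤ) = (n : ℤ) ^ 2 + D * (b : ℤ) ^ 2) ∧
    ArithmeticFunction.cardFactors m ≤ 5 ∧ ∀ p : ℕ, p.Prime → p ∣ m → (n : ℝ) ^ (3 / 25 : ℝ) ≤ p}

theorem general (D : ℤ) (hsq : ¬ IsSquare (-D)) :
    ∃ c : ℝ, 0 < c ∧ ∃ n₀ : ℕ, ∀ n : ℕ, n₀ ≤ n → IsCoprime (n : ℤ) D → ∀ lo hi : ℕ,
      (lo ≤ (n - 1) ^ 2 ∨ (0 < D ∧ lo ≤ n ^ 2)) → ((n + 1) ^ 2 ≤ hi ∨ (D < 0 ∧ n ^ 2 ≤ hi)) →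
      c * ((Nat.totient n : ℝ) / n) * (Real.sqrt n / Real.log n) ≤ ((P5 D n lo hi).ncard : ℝ) := by
  classical
  have hD0 : D ≠ 0 := by
    rintro rfl
    exact hsq ⟨0, by simp⟩
  obtain ⟨c, hc, Y0, H⟩ := Pool.Agent.H530.SqD.main D hsq
  obtain ⟨A, hA⟩ : ∃ A : ℕ, A = D.natAbs := ⟨_, rfl⟩
  have hA0 : 0 < A := by
    rw [hA]
    exact Int.natAbs_pos.2 hD0
  have hAr : (0 : ℝ) < A := by exact_mod_cast hA0
  have hAD : (A : ℤ) = |D| := by rw [hA, Int.natCast_natAbs]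
  have ev1 : ∀ᶠ Y : ℕ in atTop, (4 * A : ℝ) ≤ (Y : ℝ) ^ (4 / 100 : ℝ) :=
    ((tendsto_rpow_atTop (by norm_num)).comp tendsto_natCast_atTop_atTop).eventually_ge_atTop _
  obtain ⟨Y1, hY1⟩ := eventually_atTop.1 (ev1.and (eventually_ge_atTop 3))
  obtain ⟨M, hM⟩ : ∃ M : ℕ, M = max Y0 Y1 := ⟨_, rfl⟩
  refine ⟨c / (2 * Real.sqrt A), by positivity, 4 * A * (M + 3) ^ 2 + 3, ?_⟩
  intro n hn hco lo hi hlo hhi
  obtain ⟨Y, hY⟩ : ∃ Y : ℕ, Y = Nat.sqrt ((2 * n - 2) / A) := ⟨_, rfl⟩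
  have hn3 : 3 ≤ n := by omega
  -- the size of `Y`
  have hYM : M ≤ Y := by
    rw [hY, Nat.le_sqrt', Nat.le_div_iff_mul_le hA0]
    have h1 : M ^ 2 * A ≤ 4 * A * (M + 3) ^ 2 := by
      have h2 : M ^ 2 ≤ (M + 3) ^ 2 := Nat.pow_le_pow_left (by omega) 2
      calc M ^ 2 * A ≤ (M + 3) ^ 2 * A := Nat.mul_le_mul_right _ h2
        _ ≤ 4 * ((M + 3) ^ 2 * A) := by omega
        _ = 4 * A * (M + 3) ^ 2 := by ring
    omega
  have hYY0 : Y0 ≤ Y := by
    have := le_max_left Y0 Y1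
    omega
  have hYY1 : Y1 ≤ Y := by
    have := le_max_right Y0 Y1
    omega
  obtain ⟨e1, e2⟩ := hY1 Y hYY1
  have hYr : (3 : ℝ) ≤ Y := by exact_mod_cast e2
  have hYp : (0 : ℝ) < Y := by linarith
  have hYone : (1 : ℝ) ≤ Y := by linarith
  have hup : A * Y ^ 2 ≤ 2 * n - 2 := by
    have h1 : Y ^ 2 ≤ (2 * n - 2) / A := by
      rw [hY]
      exact Nat.sqrt_le' _
    rw [Nat.le_div_iff_mul_le hA0] at h1
    linarith
  have hlow : 2 * n - 2 < A * (Y + 1) ^ 2 := by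
    have h1 : (2 * n - 2) / A < (Y + 1) ^ 2 := by
      rw [hY]
      exact Nat.lt_succ_sqrt' _
    rw [Nat.div_lt_iff_lt_mul hA0] at h1
    linarith
  have hn4 : n ≤ 4 * A * Y ^ 2 := by
    have h1 : (Y + 1) ^ 2 ≤ 4 * Y ^ 2 := by nlinarith
    have h2 : A * (Y + 1) ^ 2 ≤ A * (4 * Y ^ 2) := Nat.mul_le_mul_left _ h1
    have h3 : A * (4 * Y ^ 2) = 4 * A * Y ^ 2 := by ring
    omega
  have hn4r : (n : ℝ) ≤ 4 * A * (Y : ℝ) ^ 2 := by exact_mod_cast hn4
  have hnY : (n : ℝ) ≤ (Y : ℝ) ^ (204 / 100 : ℝ) := by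
    calc (n : ℝ) ≤ 4 * A * (Y : ℝ) ^ 2 := hn4r
      _ ≤ (Y : ℝ) ^ (4 / 100 : ℝ) * (Y : ℝ) ^ 2 := mul_le_mul_of_nonneg_right e1 (by positivity)
      _ = (Y : ℝ) ^ (204 / 100 : ℝ) := by
          rw [← Real.rpow_natCast, ← Real.rpow_add hYp]
          norm_num
  have hmain := H Y hYY0 n (by omega) hnY hco
  set G := (Icc 1 Y).filter (fun j : ℕ =>
          ((n : ℤ) ^ 2 + D * (j : ℤ) ^ 2).natAbs.primeFactorsList.length ≤ 5 ∧
          ∀ p : ℕ, p.Prime → (p : ℤ) ∣ (n : ℤ) ^ 2 + D * (j : ℤ) ^ 2 →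
            (Y : ℝ) ^ (49 / 200 : ℝ) ≤ p) with hG
  -- the bounds for the values
  have hval : ∀ j ∈ G, 1 ≤ j ∧ |D * (j : ℤ) ^ 2| ≤ 2 * n - 2 := by
    intro j hj
    have hj1 := mem_Icc.1 (mem_filter.1 hj).1
    refine ⟨hj1.1, ?_⟩
    have h1 : A * j ^ 2 ≤ A * Y ^ 2 := Nat.mul_le_mul_left _ (Nat.pow_le_pow_left hj1.2 2)
    have h2 : ((A * j ^ 2 : ℕ) : ℤ) ≤ 2 * n - 2 := by
      have : A * j ^ 2 ≤ 2 * n - 2 := h1.trans hup
      have h3 : ((2 * n - 2 : ℕ) : ℤ) = 2 * n - 2 := by omega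
      rw [← h3]
      exact_mod_cast this
    rw [abs_mul, abs_of_nonneg (by positivity : (0 : ℤ) ≤ (j : ℤ) ^ 2), ← hAD]
    push_cast at h2
    exact h2
  have hnz : (3 : ℤ) ≤ n := by exact_mod_cast hn3
  have hpos : ∀ j ∈ G, 0 < (n : ℤ) ^ 2 + D * (j : ℤ) ^ 2 := by
    intro j hj
    have := abs_le.1 (hval j hj).2
    nlinarith
  have hmem : ∀ j ∈ G, ((n : ℤ) ^ 2 + D * (j : ℤ) ^ 2).natAbs ∈ P5 D n lo hi := by
    intro j hj
    obtain ⟨hj1, hj2⟩ := hval j hj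
    have hp := hpos j hj
    have hab := abs_le.1 hj2
    have hcast : ((((n : ℤ) ^ 2 + D * (j : ℤ) ^ 2).natAbs : ℕ) : ℤ) = (n : ℤ) ^ 2 + D * (j : ℤ) ^ 2 :=
      Int.natAbs_of_nonneg hp.le
    have hj2' : (0 : ℤ) < (j : ℤ) ^ 2 := by
      have : (0 : ℤ) < j := by exact_mod_cast hj1
      positivity
    obtain ⟨-, hG1, hG2⟩ := mem_filter.1 hj
    refine ⟨?_, ?_, ⟨j, hj1, hcast⟩, hG1, ?_⟩
    · zify
      rw [Int.abs_eq_natAbs, hcast]
      rcases hlo with h | ⟨h, h'⟩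
      · have h1 : (lo : ℤ) ≤ ((n : ℤ) - 1) ^ 2 := by
          have h2 : ((n - 1 : ℕ) : ℤ) = (n : ℤ) - 1 := by omega
          rw [← h2]
          exact_mod_cast h
        nlinarith
      · have h1 : (lo : ℤ) ≤ (n : ℤ) ^ 2 := by exact_mod_cast h'
        have : 0 < D * (j : ℤ) ^ 2 := mul_pos h hj2'
        linarith
    · zify
      rw [Int.abs_eq_natAbs, hcast]
      rcases hhi with h | ⟨h, h'⟩
      · have h1 : ((n : ℤ) + 1) ^ 2 ≤ hi := by exact_mod_cast h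
        nlinarith
      · have h1 : (n : ℤ) ^ 2 ≤ hi := by exact_mod_cast h'
        have : D * (j : ℤ) ^ 2 < 0 := mul_neg_of_neg_of_pos h hj2'
        linarith
    · intro p hpp hpd
      have h1 := hG2 p hpp (Int.natCast_dvd.2 hpd)
      refine le_trans ?_ h1
      calc (n : ℝ) ^ (3 / 25 : ℝ) ≤ ((Y : ℝ) ^ (204 / 100 : ℝ)) ^ (3 / 25 : ℝ) :=
            Real.rpow_le_rpow (Nat.cast_nonneg _) hnY (by norm_num)
        _ = (Y : ℝ) ^ (204 / 100 * (3 / 25) : ℝ) := by rw [← Real.rpow_mul hYp.le]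
        _ ≤ (Y : ℝ) ^ (49 / 200 : ℝ) := Real.rpow_le_rpow_of_exponent_le hYone (by norm_num)
  have hinj : Set.InjOn (fun j : ℕ => ((n : ℤ) ^ 2 + D * (j : ℤ) ^ 2).natAbs) (G : Set ℕ) := by
    intro i hi' j hj hij
    have h1 := hpos i hi'
    have h2 := hpos j hj
    have h3 : (n : ℤ) ^ 2 + D * (i : ℤ) ^ 2 = (n : ℤ) ^ 2 + D * (j : ℤ) ^ 2 := by
      have e3 := Int.natAbs_of_nonneg h1.le
      have e4 := Int.natAbs_of_nonneg h2.le
      have hij' : ((n : ℤ) ^ 2 + D * (i : ℤ) ^ 2).natAbs = ((n : ℤ) ^ 2 + D * (j : ℤ) ^ 2).natAbs := hij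
      rw [← e3, ← e4, hij']
    have h4 : (i : ℤ) ^ 2 = (j : ℤ) ^ 2 := by
      have : D * ((i : ℤ) ^ 2 - (j : ℤ) ^ 2) = 0 := by linarith
      rcases mul_eq_zero.1 this with h | h
      · exact absurd h hD0
      · linarith
    have h5 : i ^ 2 = j ^ 2 := by exact_mod_cast h4
    exact Nat.pow_left_injective two_ne_zero h5
  have hfin : (P5 D n lo hi).Finite := by
    apply (Set.finite_Iio hi).subset
    intro m hm
    exact hm.2.1
  have hcard : (G.card : ℝ) ≤ ((P5 D n lo hi).ncard : ℝ) := by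
    have h1 : (G.image (fun j : ℕ => ((n : ℤ) ^ 2 + D * (j : ℤ) ^ 2).natAbs)).card = G.card :=
      card_image_of_injOn hinj
    rw [← h1, ← Set.ncard_coe_finset]
    apply Nat.cast_le.2
    apply Set.ncard_le_ncard _ hfin
    intro m hm
    rw [mem_coe, mem_image] at hm
    obtain ⟨j, hj, rfl⟩ := hm
    exact hmem j hj
  refine le_trans ?_ (hmain.trans hcard)
  -- comparison of the main terms
  have hnr : (3 : ℝ) ≤ n := by exact_mod_cast hn3
  have hYn : (Y : ℝ) ≤ n := by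
    have h1 : Y ^ 2 ≤ 2 * n - 2 := by
      calc Y ^ 2 = 1 * Y ^ 2 := (one_mul _).symm
        _ ≤ A * Y ^ 2 := Nat.mul_le_mul_right _ hA0
        _ ≤ _ := hup
    have h2 : Y ≤ n := by
      by_contra h
      push Not at h
      have : (n + 1) ^ 2 ≤ Y ^ 2 := Nat.pow_le_pow_left h 2
      nlinarith [Nat.sub_le (2 * n) 2]
    exact_mod_cast h2
  have hlY : 0 < Real.log Y := Real.log_pos (by linarith)
  have hll : Real.log Y ≤ Real.log n := Real.log_le_log hYp hYn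
  have hsA : 0 < Real.sqrt A := Real.sqrt_pos.2 hAr
  have hsq2 : Real.sqrt n ≤ 2 * Real.sqrt A * Y := by
    rw [Real.sqrt_le_left (by positivity), mul_pow, mul_pow, Real.sq_sqrt hAr.le]
    linarith
  have h20 : Real.sqrt n / Real.log n ≤ 2 * Real.sqrt A * (Y / Real.log Y) := by
    calc Real.sqrt n / Real.log n ≤ (2 * Real.sqrt A * Y) / Real.log Y := by
          apply div_le_div₀ (by positivity) hsq2 hlY hll
      _ = _ := by ring
  calc c / (2 * Real.sqrt A) * ((Nat.totient n : ℝ) / n) * (Real.sqrt n / Real.log n)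
      ≤ c / (2 * Real.sqrt A) * ((Nat.totient n : ℝ) / n) * (2 * Real.sqrt A * (Y / Real.log Y)) :=
        mul_le_mul_of_nonneg_left h20 (by positivity)
    _ = (c / (2 * Real.sqrt A) * (2 * Real.sqrt A)) * (Y / Real.log Y) *
          ((Nat.totient n : ℝ) / n) := by ring
    _ = c * (Y / Real.log Y) * ((Nat.totient n : ℝ) / n) := by
        rw [div_mul_cancel₀ c (by positivity : (2 * Real.sqrt A : ℝ) ≠ 0)]

/-- **Numbers `n ^ 2 + D b ^ 2` with at most five prime factors: between all large consecutive odd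
squares, and in each half of these intervals.** -/
theorem result :
    -- between consecutive odd squares
    (∀ D : ℤ, ¬ IsSquare (-D) → ∃ c : ℝ, 0 < c ∧ ∃ k₀ : ℕ, ∀ k : ℕ, k₀ ≤ k →
      IsCoprime (2 * k : ℤ) D →
      c * ((Nat.totient (2 * k) : ℝ) / (2 * k)) * (Real.sqrt k / Real.log k) ≤
        ((P5 D (2 * k) ((2 * k - 1) ^ 2) ((2 * k + 1) ^ 2)).ncard : ℝ)) ∧
    -- sums of two squares in the lower and in the upper half of this interval
    (∃ c : ℝ, 0 < c ∧ ∃ k₀ : ℕ, ∀ k : ℕ, k₀ ≤ k →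
      c * ((Nat.totient (2 * k - 1) : ℝ) / (2 * k - 1 : ℕ)) * (Real.sqrt k / Real.log k) ≤
        ((P5 1 (2 * k - 1) ((2 * k - 1) ^ 2) ((2 * k) ^ 2)).ncard : ℝ) ∧
      c * ((Nat.totient (2 * k) : ℝ) / (2 * k : ℕ)) * (Real.sqrt k / Real.log k) ≤
        ((P5 1 (2 * k) ((2 * k) ^ 2) ((2 * k + 1) ^ 2)).ncard : ℝ)) ∧
    -- every `n`, above `n ^ 2` for `D > 0` and below `n ^ 2` for `D < 0`
    ∀ D : ℤ, ¬ IsSquare (-D) → ∃ c : ℝ, 0 < c ∧ ∃ n₀ : ℕ, ∀ n : ℕ, n₀ ≤ n → IsCoprime (n : ℤ) D →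
      (0 < D → c * ((Nat.totient n : ℝ) / n) * (Real.sqrt n / Real.log n) ≤
        ((P5 D n (n ^ 2) ((n + 1) ^ 2)).ncard : ℝ)) ∧
      (D < 0 → c * ((Nat.totient n : ℝ) / n) * (Real.sqrt n / Real.log n) ≤
        ((P5 D n ((n - 1) ^ 2) (n ^ 2)).ncard : ℝ)) := by
  -- from `√(2 k)`, `log (2 k)` to `√k`, `log k`
  have hconv : ∀ k n : ℕ, 2 ≤ k → k ≤ n → n ≤ 2 * k →
      (1 / 2 : ℝ) * (Real.sqrt k / Real.log k) ≤ Real.sqrt n / Real.log n := by
    intro k n hk hkn hn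
    have hkr : (2 : ℝ) ≤ k := by exact_mod_cast hk
    have hnr : (k : ℝ) ≤ n := by exact_mod_cast hkn
    have hn2 : (n : ℝ) ≤ 2 * k := by exact_mod_cast hn
    have h1 : 0 < Real.log k := Real.log_pos (by linarith)
    have h2 : Real.log n ≤ 2 * Real.log k := by
      calc Real.log n ≤ Real.log ((k : ℝ) ^ 2) := Real.log_le_log (by linarith) (by nlinarith)
        _ = 2 * Real.log k := by rw [Real.log_pow]; norm_num
    have h3 : 0 < Real.log n := Real.log_pos (by linarith)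
    rw [one_div_mul_eq_div, div_div, div_le_div_iff₀ (by positivity) h3]
    have h4 := Real.sqrt_le_sqrt hnr
    have h5 := Real.sqrt_nonneg (k : ℝ)
    nlinarith
  refine ⟨?_, ?_, ?_⟩
  · intro D hD
    obtain ⟨c, hc, n₀, H⟩ := general D hD
    refine ⟨c / 2, by positivity, max n₀ 2, fun k hk hco => ?_⟩
    have hk0 : n₀ ≤ k := (le_max_left _ _).trans hk
    have hk2 : 2 ≤ k := (le_max_right _ _).trans hk
    have h1 := H (2 * k) (by omega) (by push_cast; exact hco) ((2 * k - 1) ^ 2) ((2 * k + 1) ^ 2)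
      (Or.inl le_rfl) (Or.inl le_rfl)
    refine le_trans ?_ h1
    have h2 := hconv k (2 * k) hk2 (by omega) le_rfl
    push_cast at h2 ⊢
    calc c / 2 * ((Nat.totient (2 * k) : ℝ) / (2 * k)) * (Real.sqrt k / Real.log k) =
        c * ((Nat.totient (2 * k) : ℝ) / (2 * k)) * (1 / 2 * (Real.sqrt k / Real.log k)) := by ring
      _ ≤ _ := mul_le_mul_of_nonneg_left h2 (by positivity)
  · have h1s : ¬ IsSquare (-(1 : ℤ)) := by
      rintro ⟨r, hr⟩
      nlinarith [mul_self_nonneg r]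
    obtain ⟨c, hc, n₀, H⟩ := general 1 h1s
    refine ⟨c / 2, by positivity, max n₀ 2, fun k hk => ?_⟩
    have hk0 : n₀ ≤ k := (le_max_left _ _).trans hk
    have hk2 : 2 ≤ k := (le_max_right _ _).trans hk
    constructor
    · have h1 := H (2 * k - 1) (by omega) isCoprime_one_right ((2 * k - 1) ^ 2) ((2 * k) ^ 2)
        (Or.inr ⟨one_pos, le_rfl⟩) (Or.inl (by
          have : 2 * k - 1 + 1 = 2 * k := by omega
          rw [this]))
      refine le_trans ?_ h1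
      have h2 := hconv k (2 * k - 1) hk2 (by omega) (by omega)
      calc c / 2 * ((Nat.totient (2 * k - 1) : ℝ) / (2 * k - 1 : ℕ)) * (Real.sqrt k / Real.log k) =
          c * ((Nat.totient (2 * k - 1) : ℝ) / (2 * k - 1 : ℕ)) *
            (1 / 2 * (Real.sqrt k / Real.log k)) := by ring
        _ ≤ _ := mul_le_mul_of_nonneg_left h2 (by positivity)
    · have h1 := H (2 * k) (by omega) isCoprime_one_right ((2 * k) ^ 2) ((2 * k + 1) ^ 2)
        (Or.inr ⟨one_pos, le_rfl⟩) (Or.inl le_rfl)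
      refine le_trans ?_ h1
      have h2 := hconv k (2 * k) hk2 (by omega) le_rfl
      calc c / 2 * ((Nat.totient (2 * k) : ℝ) / (2 * k : ℕ)) * (Real.sqrt k / Real.log k) =
          c * ((Nat.totient (2 * k) : ℝ) / (2 * k : ℕ)) *
            (1 / 2 * (Real.sqrt k / Real.log k)) := by ring
        _ ≤ _ := mul_le_mul_of_nonneg_left h2 (by positivity)
  · intro D hD
    obtain ⟨c, hc, n₀, H⟩ := general D hD
    refine ⟨c, hc, n₀, fun n hn hco => ⟨fun h => ?_, fun h => ?_⟩⟩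
    · exact H n hn hco _ _ (Or.inr ⟨h, le_rfl⟩) (Or.inl le_rfl)
    · exact H n hn hco _ _ (Or.inl le_rfl) (Or.inr ⟨h, le_rfl⟩)

end Pool.Agent.Results.MP_3a3367_nt.QuadraticAlmostPrimes
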